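import Mathlib

/-!
# Nondegenerate zeros relative to directions, and affine substitutions
-/

set_option autoImplicit false

open MvPolynomial

namespace Pool.Agent.L5helper59.DM

/-- the affine form `a + ∑ b i X i` -/
noncomputable def af {ι : Type} [Fintype ι] (a : ℂ) (b : ι → ℂ) : MvPolynomial ι ℂ :=
  C a + ∑ i, C (b i) * X i

/-- affine substitution -/
noncomputable def sb {τ ι : Type} [Fintype ι] (a : τ → ℂ) (b : τ → ι → ℂ) :
    MvPolynomial τ ℂ →ₐ[ℂ] MvPolynomial ι ℂ :=
  aeval (fun v => af (a v) (b v))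

/-- `p` is a nondegenerate zero and critical point of `F` with respect to the directions `w` -/
def Pt {ι κ : Type} [Fintype ι] (F : MvPolynomial ι ℂ) (w : κ → ι → ℂ) (p : ι → ℂ) : Prop :=
  eval p F = 0 ∧ (∀ e, ∑ i, w e i * eval p (pderiv i F) = 0) ∧
    ∀ z : ι → ℂ, ∑ i, z i * eval p (pderiv i F) = 0 →
      (∀ e, ∑ i, ∑ j, z j * w e i * eval p (pderiv j (pderiv i F)) = 0) → z = 0

end Pool.Agent.L5helper59.DM
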