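import Pool.Agent.L5helper49.ZT.IrrField
import Pool.Agent.L5helper5.ZT.RZero
import Pool.Agent.L5helper83.ZT.RSign

/-!
# The real version
-/

set_option autoImplicit false

open MvPolynomial Filter Topology

namespace Pool.Agent.L5helper59.DM

theorem dvd_of_sign (m : ℕ) (hm : 1 ≤ m) (E F : MvPolynomial (Fin m × Fin m) ℝ)
    (hE : ¬ (Matrix.permanent (Matrix.of fun i j => X (i, j)) :
      MvPolynomial (Fin m × Fin m) ℝ) ∣ E)
    (h1 : ∀ x : Fin m × Fin m → ℝ, eval x E ≠ 0 →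
      0 < Matrix.permanent (Matrix.of fun i j => x (i, j)) → 0 < eval x F)
    (h2 : ∀ x : Fin m × Fin m → ℝ, eval x E ≠ 0 →
      Matrix.permanent (Matrix.of fun i j => x (i, j)) < 0 → eval x F < 0) :
    (Matrix.permanent (Matrix.of fun i j => X (i, j)) : MvPolynomial (Fin m × Fin m) ℝ) ∣ F := by
  have hp : Prime (Pool.Agent.L5helper88.Model.perm ℝ m) :=
    (Pool.Agent.L5helper59.ZT.perm_irreducible_field ℝ m hm).prime
  have heval : ∀ x : Fin m × Fin m → ℝ, eval x (Pool.Agent.L5helper88.Model.perm ℝ m) =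
      Matrix.permanent (Matrix.of fun i j => x (i, j)) := by
    intro x
    unfold Pool.Agent.L5helper88.Model.perm Matrix.permanent
    simp [map_sum, map_prod]
  change Pool.Agent.L5helper88.Model.perm ℝ m ∣ F
  by_contra hcon
  have i0 : Fin m × Fin m := (⟨0, hm⟩, ⟨0, hm⟩)
  have hnd : ¬ Pool.Agent.L5helper88.Model.perm ℝ m ∣
      E * F * pderiv i0 (Pool.Agent.L5helper88.Model.perm ℝ m) := fun h =>
    (hp.dvd_or_dvd h).elim (fun h' => (hp.dvd_or_dvd h').elim hE hcon)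
      (Pool.Agent.L5helper59.ZT.perm_not_dvd_pderiv m hm i0)
  obtain ⟨x0, hx0, hx1⟩ := Pool.Agent.L5helper59.ZT.exists_real_zero m hm hp _ hnd
  rw [map_mul, map_mul] at hx1
  have hF : eval x0 F ≠ 0 := right_ne_zero_of_mul (left_ne_zero_of_mul hx1)
  have hE0 : eval x0 E ≠ 0 := left_ne_zero_of_mul (left_ne_zero_of_mul hx1)
  have hcontE : Continuous fun x : Fin m × Fin m → ℝ => eval x E := MvPolynomial.continuous_eval E
  have hEU : {x : Fin m × Fin m → ℝ | eval x E ≠ 0} ∈ 𝓝 x0 :=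
    (isOpen_ne.preimage hcontE).mem_nhds hE0
  have hcont : Continuous fun x : Fin m × Fin m → ℝ => eval x F := MvPolynomial.continuous_eval F
  rcases lt_or_gt_of_ne hF with hlt | hgt
  · have hU : {x : Fin m × Fin m → ℝ | eval x F < 0} ∈ 𝓝 x0 :=
      (isOpen_Iio.preimage hcont).mem_nhds hlt
    obtain ⟨⟨x, hxU, hx⟩, _⟩ := Pool.Agent.L5helper59.ZT.perm_sign_change m i0 x0 hx0
      (right_ne_zero_of_mul hx1) _ (Filter.inter_mem hU hEU)
    rw [heval] at hx
    exact absurd (h1 x hxU.2 hx) (not_lt.2 (le_of_lt hxU.1))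
  · have hU : {x : Fin m × Fin m → ℝ | 0 < eval x F} ∈ 𝓝 x0 :=
      (isOpen_Ioi.preimage hcont).mem_nhds hgt
    obtain ⟨_, x, hxU, hx⟩ := Pool.Agent.L5helper59.ZT.perm_sign_change m i0 x0 hx0
      (right_ne_zero_of_mul hx1) _ (Filter.inter_mem hU hEU)
    rw [heval] at hx
    exact absurd (h2 x hxU.2 hx) (not_lt.2 (le_of_lt hxU.1))

end Pool.Agent.L5helper59.DM
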