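import Pool.Agent.L5helper21.DM7
import Pool.Agent.L5helper59.DM.Sign
import Pool.Agent.L5helper67.DM.Good
import Pool.Agent.L5helper73.DM.Persist
import Pool.Agent.L5helper82.DM.AllPoints
import Pool.Agent.L5helper4.DM.OnePoint
import Pool.Agent.L5helper54.DM.SbTendsto
import Pool.Agent.L5helper50.DM.PtOpen
import Pool.Agent.L5helper49.DM.MulDet
import Pool.Agent.L5helper65.DM.Entry
import Pool.Agent.L5helper9.DM.MovePoints
import Pool.Agent.L5helper15.DM.NearZero
import Pool.Agent.L5helper40.ZT.Irr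
import Pool.Agent.L5helper73.ZT.Zero

/-!
# Matrices of affine forms which are singular at all zeros of the permanent
-/

set_option autoImplicit false

open Finset MvPolynomial Filter Topology

namespace Pool.Agent.L5helper59.DM

open L5helper59.DC L5helper59.NC

theorem permPoly_prime (m : ℕ) (hm : 1 ≤ m) : Prime (permPoly m) :=
  (Pool.Agent.L5helper59.ZT.perm_irreducible m hm).prime

theorem all_points {τ ι κ : Type} [Fintype τ] [DecidableEq τ] [Fintype ι] [Fintype κ]
    [DecidableEq ι] [DecidableEq κ] (hcard : Fintype.card ι = Fintype.card κ + 1)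
    (P q : MvPolynomial τ ℂ)
    (hd : ∀ y : τ → ℂ, eval y P = 0 → ∀ v, eval y (pderiv v P) ≠ 0 → ∀ ε : ℝ, 0 < ε →
      ∃ y' : τ → ℂ, (∀ i, ‖y' i - y i‖ ≤ ε) ∧ eval y' P = 0 ∧ eval y' q ≠ 0)
    (a : τ → ℂ) (b : τ → ι → ℂ) (w : κ → ι → ℂ) (S : Finset (ι → ℂ))
    (hS : ∀ p ∈ S, Pt (sb a b P) w p) :
    ∃ (a' : τ → ℂ) (b' : τ → ι → ℂ) (S' : Finset (ι → ℂ)), S'.card = S.card ∧
      ∀ p ∈ S', Pt (sb a' b' P) w p ∧ eval p (sb a' b' q) ≠ 0 :=
  all_points_of (fun F Fk D h1 h2 w p h e he => pt_persists hcard F Fk D h1 h2 w p h e he)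
    (fun a b ak bk ha hb P => ⟨(sb_tendsto a b ak bk ha hb P).1, (sb_tendsto a b ak bk ha hb P).2.1⟩)
    P q (fun a b w p h => one_point_of pt_open sb_tendsto hcard P q hd a b w p h) a b w S hS

theorem sb_degree {τ ι : Type} [Fintype τ] [Fintype ι] (a : τ → ℂ) (b : τ → ι → ℂ)
    (P : MvPolynomial τ ℂ) : (sb a b P).totalDegree ≤ P.totalDegree :=
  (sb_tendsto a b (fun _ => a) (fun _ => b) (fun _ => tendsto_const_nhds)
    (fun _ _ => tendsto_const_nhds) P).1 0

/-- **Determinants divisible by the permanent give the count of points.** -/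
theorem good_of_dvd (m M : ℕ) (hm : 1 ≤ m)
    (A : Matrix (Fin (M + 1)) (Fin (M + 1)) (MvPolynomial (Fin m × Fin m) ℂ))
    (hA : ∀ i j, (A i j).totalDegree ≤ 1) (h0 : A.det ≠ 0) (hd : permPoly m ∣ A.det) :
    Good m M := by
  intro ι κ _ _ _ _ hcard F Fk D hdeg hlim hperm w S hS a b ha hb
  have hp := permPoly_prime m hm
  obtain ⟨k, S', hS'c, hS'0, hS'1, hS'2⟩ := Pool.Agent.L5helper18.DC.persist hcard F Fk D hdeg
    hlim w S hS.1 hS.2.1 hS.2.2
  obtain ⟨N, K, hK, hN, hNp⟩ := hperm k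
  have hP : Pts (C K * Fk k) w S' := Pts.scale ⟨hS'0, hS'1, hS'2⟩ K hK
  -- the substitution
  set α : Fin m × Fin m → ℂ := fun v => coeff 0 (N v.1 v.2) with hα
  set β : Fin m × Fin m → ι → ℂ := fun v o => coeff (Finsupp.single o 1) (N v.1 v.2) with hβ
  have hsub : sb α β (permPoly m) = C K * Fk k := by
    rw [← hNp, ← aeval_permPoly]
    unfold sb
    have h1 : (fun v : Fin m × Fin m => af (α v) (β v)) = fun v => N v.1 v.2 := by
      funext v
      exact (affine_eq (N v.1 v.2) (hN v.1 v.2)).symm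
    rw [h1]
  have hPt : ∀ p ∈ S', Pt (sb α β (permPoly m)) w p := by
    intro p hpS
    rw [hsub]
    exact ⟨hP.1 p hpS, hP.2.1 p hpS, hP.2.2 p hpS⟩
  -- the entry
  obtain ⟨i, j, d, n, g, r, hn, hdet, hadj, hg, hr⟩ := exists_entry (permPoly m) hp A h0 hd
  have hgr : ¬ permPoly m ∣ g * r := fun h => (hp.dvd_or_dvd h).elim hg hr
  obtain ⟨α', β', S1, hS1c, hS1⟩ := all_points hcard (permPoly m) (g * r)
    (fun y hy v hv ε hε => near_zero m (permPoly m) (g * r) rfl hp hgr y hy v hv ε hε)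
    α β w S' hPt
  -- the sheets
  obtain ⟨K0, hK0⟩ := move_points S1
    (fun k x => Pt (sb α' β' g * sb α' β' (permPoly m) ^ n -
      C ((1 / ((k : ℂ) + 1)) ^ n) * sb α' β' r) w x ∧ eval x (sb α' β' (permPoly m)) ≠ 0)
    (fun p hpS ε hε => by
      obtain ⟨h1, h2⟩ := hS1 p hpS
      rw [map_mul, map_mul] at h2
      exact sheet hcard (sb α' β' (permPoly m)) (sb α' β' g) (sb α' β' r) w p h1
        (left_ne_zero_of_mul h2) (right_ne_zero_of_mul h2) n hn ε hε)
  obtain ⟨S2, hS2c, hS2⟩ := hK0 K0 le_rfl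
  set c : ℂ := (1 / ((K0 : ℂ) + 1)) ^ n with hc
  set A' : Matrix (Fin (M + 1)) (Fin (M + 1)) (MvPolynomial ι ℂ) :=
    (A + Matrix.single j i (C (-c))).map (sb α' β') with hA'
  have hdet' : A'.det = sb α' β' (permPoly m) ^ d *
      (sb α' β' g * sb α' β' (permPoly m) ^ n - C c * sb α' β' r) := by
    have h1 : A'.det = sb α' β' (A + Matrix.single j i (C (-c))).det := by
      rw [hA', AlgHom.map_det]
      rfl
    rw [h1, det_add_single, hdet, hadj]
    simp only [map_add, map_mul, map_pow]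
    have h2 : sb α' β' (C (-c)) = - C c := by
      unfold sb
      rw [aeval_C]
      simp [MvPolynomial.algebraMap_eq]
    rw [h2]
    ring
  have hdegA' : ∀ x y, (A' x y).totalDegree ≤ 1 := by
    intro x y
    rw [hA', Matrix.map_apply]
    refine (sb_degree α' β' _).trans ?_
    rw [Matrix.add_apply]
    refine (totalDegree_add _ _).trans (max_le (hA x y) ?_)
    rw [Matrix.single_apply]
    split_ifs
    · rw [totalDegree_C]
      exact zero_le_one
    · rw [totalDegree_zero]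
      exact zero_le_one
  have hPt2 : ∀ p ∈ S2, Pt A'.det w p := by
    intro p hpS
    obtain ⟨h1, h2⟩ := hS2 p hpS
    rw [hdet']
    refine Pt.mul h1 _ ?_
    rw [map_pow]
    exact pow_ne_zero _ h2
  have hfin := card_nondeg_le hcard M _ A' hdegA' rfl w S2 (fun p hpS => (hPt2 p hpS).1)
    (fun p hpS => (hPt2 p hpS).2.1) (fun p hpS => (hPt2 p hpS).2.2) a b ha hb
  rw [hS2c, hS1c, hS'c] at hfin
  exact hfin

theorem singular_bound (m n : ℕ) (hm : 1 ≤ m)
    (A : Matrix (Fin n) (Fin n) (MvPolynomial (Fin m × Fin m) ℂ))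
    (hA : ∀ i j, (A i j).totalDegree ≤ 1) (h0 : A.det ≠ 0) (hd : permPoly m ∣ A.det) :
    ((m : ℝ) / 2912) ^ 3 ≤ n := by
  cases n with
  | zero =>
    exfalso
    rw [Matrix.det_isEmpty] at hd
    exact (permPoly_prime m hm).not_isUnit (isUnit_of_dvd_one hd)
  | succ M =>
    have h := cubic_good m M (good_of_dvd m M hm A hA h0 hd)
    push_cast
    exact h

theorem dvd_of_singular (m : ℕ) (hm : 1 ≤ m) (E F : MvPolynomial (Fin m × Fin m) ℂ)
    (hE : ¬ permPoly m ∣ E)
    (h : ∀ x : Fin m × Fin m → ℂ, eval x E ≠ 0 →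
      Matrix.permanent (Matrix.of fun i j => x (i, j)) = 0 → eval x F = 0) : permPoly m ∣ F := by
  by_contra hcon
  have hp := permPoly_prime m hm
  obtain ⟨x, hx, hxF⟩ := Pool.Agent.L5helper59.ZT.exists_zero_of_not_dvd (permPoly m) (E * F)
    hp.irreducible (fun h' => (hp.dvd_or_dvd h').elim hE hcon)
  rw [map_mul] at hxF
  refine right_ne_zero_of_mul hxF (h x (left_ne_zero_of_mul hxF) ?_)
  rw [← hx]
  unfold permPoly Matrix.permanent
  simp [map_sum, map_prod]

theorem sign_bound (m n : ℕ) (hm : 1 ≤ m)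
    (A : Matrix (Fin n) (Fin n) (MvPolynomial (Fin m × Fin m) ℝ))
    (hA : ∀ i j, (A i j).totalDegree ≤ 1) (E : MvPolynomial (Fin m × Fin m) ℝ)
    (hE : ¬ (Matrix.permanent (Matrix.of fun i j => X (i, j)) :
      MvPolynomial (Fin m × Fin m) ℝ) ∣ E)
    (h1 : ∀ x : Fin m × Fin m → ℝ, eval x E ≠ 0 →
      0 < Matrix.permanent (Matrix.of fun i j => x (i, j)) → 0 < eval x A.det)
    (h2 : ∀ x : Fin m × Fin m → ℝ, eval x E ≠ 0 →
      Matrix.permanent (Matrix.of fun i j => x (i, j)) < 0 → eval x A.det < 0) :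
    ((m : ℝ) / 2912) ^ 3 ≤ n := by
  have hd := dvd_of_sign m hm E A.det hE h1 h2
  have h0 : A.det ≠ 0 := by
    intro h
    have hp : (Matrix.permanent (Matrix.of fun i j => X (i, j)) :
      MvPolynomial (Fin m × Fin m) ℝ) ≠ 0 :=
      (Pool.Agent.L5helper59.ZT.perm_irreducible_field ℝ m hm).ne_zero
    have hE0 : E ≠ 0 := fun h' => hE (h' ▸ dvd_zero _)
    obtain ⟨x, hx⟩ : ∃ x : Fin m × Fin m → ℝ, eval x (E * Matrix.permanent
        (Matrix.of fun i j => X (i, j))) ≠ 0 := by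
      by_contra hcon
      push Not at hcon
      exact mul_ne_zero hE0 hp (MvPolynomial.funext fun y => by rw [hcon y, map_zero])
    rw [map_mul] at hx
    have heval : eval x (Matrix.permanent (Matrix.of fun i j => X (i, j)) :
        MvPolynomial (Fin m × Fin m) ℝ) = Matrix.permanent (Matrix.of fun i j => x (i, j)) := by
      unfold Matrix.permanent
      simp [map_sum, map_prod]
    have hx2 := right_ne_zero_of_mul hx
    rw [heval] at hx2
    rcases lt_or_gt_of_ne hx2 with hlt | hgt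
    · have h4 := h2 x (left_ne_zero_of_mul hx) hlt
      rw [h, map_zero] at h4
      exact lt_irrefl _ h4
    · have h4 := h1 x (left_ne_zero_of_mul hx) hgt
      rw [h, map_zero] at h4
      exact lt_irrefl _ h4
  set ι : ℝ →+* ℂ := algebraMap ℝ ℂ with hι
  have hdet : (A.map (MvPolynomial.map ι)).det = MvPolynomial.map ι A.det := by
    rw [RingHom.map_det]
    rfl
  have hperm : MvPolynomial.map ι (Matrix.permanent (Matrix.of fun i j : Fin m =>
      (X (i, j) : MvPolynomial (Fin m × Fin m) ℝ))) = permPoly m := by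
    unfold permPoly Matrix.permanent
    simp [map_sum, map_prod]
  refine singular_bound m n hm (A.map (MvPolynomial.map ι)) (fun i j => ?_) ?_ ?_
  · exact (Finset.sup_mono (support_map_subset ι (A i j))).trans (hA i j)
  · rw [hdet]
    intro h
    exact h0 (MvPolynomial.map_injective ι ι.injective (by rw [h, map_zero]))
  · rw [hdet, ← hperm]
    exact map_dvd (MvPolynomial.map ι) hd

end Pool.Agent.L5helper59.DM
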